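import Pool.Agent.H.MP_7332c2_co.D

namespace Pool.Agent.H.MP_7332c2_co
open SimpleGraph

variable {W V : Type}

/-- adjacency in `G + xy` -/
def AE (G : SimpleGraph V) (x y a b : V) : Prop := G.Adj a b ∨ (a = x ∧ b = y) ∨ (a = y ∧ b = x)

lemma le_step (H : SimpleGraph W) (G : SimpleGraph V) : G ≤ step H G := le_sup_left

lemma step_intro {H : SimpleGraph W} {G : SimpleGraph V} {x y : V} (f : W → V)
    (hf : Function.Injective f) (h : ∀ a b, H.Adj a b → AE G x y (f a) (f b)) (a b : W)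
    (hab : H.Adj a b) (ha : f a = x) (hb : f b = y) : (step H G).Adj x y := by
  have hxy : x ≠ y := fun e => hab.ne (hf (ha.trans (e.trans hb.symm)))
  refine Or.inr ((fromRel_adj _ _ _).2 ⟨hxy, Or.inl ⟨⟨⟨f, fun {p q} hpq => ?_⟩, hf⟩, a, b, hab, ha, hb⟩⟩)
  rcases h p q hpq with g | g
  · exact Or.inl g
  · exact Or.inr ((edge_adj _ _ _ _).2 ⟨g, fun e => hpq.ne (hf e)⟩)

lemma step_inv {H : SimpleGraph W} {G : SimpleGraph V} {x y : V} (h : (step H G).Adj x y)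
    (hn : ¬ G.Adj x y) : ∃ f : W → V, Function.Injective f ∧
      (∀ a b, H.Adj a b → AE G x y (f a) (f b)) ∧ ∃ a b, H.Adj a b ∧ f a = x ∧ f b = y := by
  rcases h with h | h
  · exact absurd h hn
  obtain ⟨-, ⟨f, a, b, hab, ha, hb⟩ | ⟨f, a, b, hab, ha, hb⟩⟩ := (fromRel_adj _ _ _).1 h
  · refine ⟨f, f.injective, fun p q hpq => ?_, a, b, hab, ha, hb⟩
    rcases f.toHom.map_adj hpq with g | g
    · exact Or.inl g
    · exact Or.inr ((edge_adj _ _ _ _).1 g).1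
  · refine ⟨f, f.injective, fun p q hpq => ?_, b, a, hab.symm, hb, ha⟩
    rcases f.toHom.map_adj hpq with g | g
    · exact Or.inl g
    · exact Or.inr ((edge_adj _ _ _ _).1 g).1.symm

lemma iter_mono (H : SimpleGraph W) (G : SimpleGraph V) : Monotone fun t => (step H)^[t] G :=
  monotone_nat_of_le_succ fun t => by
    rw [Function.iterate_succ_apply']; exact le_step _ _

lemma tau_spec [Finite V] (H : SimpleGraph W) (G : SimpleGraph V) :
    step H ((step H)^[tau H G] G) = (step H)^[tau H G] G := by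
  obtain ⟨t, ht⟩ := WellFoundedGT.monotone_chain_condition ⟨_, iter_mono H G⟩
  have := Nat.sInf_mem (s := {t | (step H)^[t] G = (step H)^[t + 1] G}) ⟨t, ht _ (Nat.le_succ t)⟩
  rw [Set.mem_ofPred_eq, Function.iterate_succ_apply'] at this
  exact this.symm

lemma tau_le_max (H : SimpleGraph W) {n : ℕ} (G : SimpleGraph (Fin n)) : tau H G ≤ maxTime H n :=
  le_ciSup (f := fun G : SimpleGraph (Fin n) => tau H G) (Set.finite_range _).bddAbove G

def wt : List (Fin 7 × Fin 7) :=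
  [(0,1),(1,2),(2,3),(3,4),(4,5),(5,0),(6,0),(6,1),(6,2),(6,3),(6,4),(6,5)]

def W6 : SimpleGraph (Fin 7) := fromRel fun a b => (a, b) ∈ wt

/-- a wheel with hub `v` for the relation `R` -/
structure Wh (R : V → V → Prop) (v c0 c1 c2 c3 c4 c5 : V) : Prop where
  nd : [c0, c1, c2, c3, c4, c5, v].Nodup
  r0 : R c0 c1
  r1 : R c1 c2
  r2 : R c2 c3
  r3 : R c3 c4
  r4 : R c4 c5
  r5 : R c5 c0
  s0 : R v c0
  s1 : R v c1
  s2 : R v c2
  s3 : R v c3
  s4 : R v c4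
  s5 : R v c5

lemma wh_of {R : V → V → Prop} (f : Fin 7 → V) (hf : Function.Injective f)
    (h : ∀ a b, W6.Adj a b → R (f a) (f b)) :
    Wh R (f 6) (f 0) (f 1) (f 2) (f 3) (f 4) (f 5) := by
  have k : ∀ a b, (a, b) ∈ wt → a ≠ b → R (f a) (f b) := fun a b p q =>
    h a b ((fromRel_adj _ _ _).2 ⟨q, Or.inl p⟩)
  refine ⟨by simp [hf.eq_iff], ?_, ?_, ?_, ?_, ?_, ?_, ?_, ?_, ?_, ?_, ?_, ?_⟩ <;>
    exact k _ _ (by decide) (by decide)

lemma wh_to {R : V → V → Prop} (hs : ∀ a b, R a b → R b a) {v c0 c1 c2 c3 c4 c5 : V}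
    (h : Wh R v c0 c1 c2 c3 c4 c5) : ∀ a b, W6.Adj a b →
      R ([c0, c1, c2, c3, c4, c5, v].get a) ([c0, c1, c2, c3, c4, c5, v].get b) := by
  have k : ∀ t ∈ wt,
      R ([c0, c1, c2, c3, c4, c5, v].get t.1) ([c0, c1, c2, c3, c4, c5, v].get t.2) := by
    intro t ht
    simp only [wt, List.mem_cons, List.not_mem_nil, or_false] at ht
    rcases ht with rfl | rfl | rfl | rfl | rfl | rfl | rfl | rfl | rfl | rfl | rfl | rfl
    exacts [h.r0, h.r1, h.r2, h.r3, h.r4, h.r5, h.s0, h.s1, h.s2, h.s3, h.s4, h.s5]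
  intro a b hab
  rcases ((fromRel_adj _ _ _).1 hab).2 with g | g
  exacts [k _ g, hs _ _ (k _ g)]

lemma AE_symm (G : SimpleGraph V) (x y : V) : ∀ a b, AE G x y a b → AE G x y b a := by
  rintro a b (h | h | h)
  exacts [Or.inl h.symm, Or.inr (Or.inr h.symm), Or.inr (Or.inl h.symm)]

/-- new edge of the `W6`-process -/
lemma W_inv {G : SimpleGraph V} {x y : V} (h : (step W6 G).Adj x y) (hn : ¬ G.Adj x y) :
    ∃ v c0 c1 c2 c3 c4 c5, Wh (AE G x y) v c0 c1 c2 c3 c4 c5 ∧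
      ¬ Wh G.Adj v c0 c1 c2 c3 c4 c5 := by
  obtain ⟨f, hf, g, a, b, hab, rfl, rfl⟩ := step_inv h hn
  refine ⟨_, _, _, _, _, _, _, wh_of f hf g, fun w => hn ?_⟩
  have := wh_to (fun _ _ => Adj.symm) w a b hab
  have e : ∀ a : Fin 7, [f 0, f 1, f 2, f 3, f 4, f 5, f 6].get a = f a := by
    intro a; fin_cases a <;> rfl
  rwa [e, e] at this

lemma W_intro {G : SimpleGraph V} {v c0 c1 c2 c3 c4 c5 : V}
    (h : Wh (AE G c0 c1) v c0 c1 c2 c3 c4 c5) : (step W6 G).Adj c0 c1 :=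
  step_intro _ (List.nodup_iff_injective_get.1 h.nd) (wh_to (AE_symm _ _ _) h) 0 1
    ((fromRel_adj _ _ _).2 ⟨by decide, Or.inl (by decide)⟩) rfl rfl

def PP : SimpleGraph (Option (Fin 7)) := pend W6 6

lemma PP_some {a b : Fin 7} (h : W6.Adj a b) : PP.Adj (some a) (some b) :=
  (fromRel_adj _ _ _).2 ⟨by simpa using h.ne, Or.inl (Or.inl ⟨a, b, h, rfl, rfl⟩)⟩

/-- new edge of the process of the wheel with a pendant edge at the hub -/
lemma P_inv {G : SimpleGraph V} {x y : V} (h : (step PP G).Adj x y) (hn : ¬ G.Adj x y) :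
    ∃ v c0 c1 c2 c3 c4 c5, Wh (AE G x y) v c0 c1 c2 c3 c4 c5 ∧
      (¬ Wh G.Adj v c0 c1 c2 c3 c4 c5 ∨ v = x ∨ v = y) := by
  obtain ⟨f, hf, g, a, b, hab, rfl, rfl⟩ := step_inv h hn
  refine ⟨_, _, _, _, _, _, _, wh_of (fun a => f (some a)) (hf.comp (Option.some_injective _))
    fun a b h => g _ _ (PP_some h), ?_⟩
  have k : ∀ p q, W6.Adj p q → a = some p → b = some q →
      ¬ Wh G.Adj (f (some 6)) (f (some 0)) (f (some 1)) (f (some 2)) (f (some 3)) (f (some 4))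
        (f (some 5)) := by
    rintro p q hpq rfl rfl w
    have := wh_to (fun _ _ => Adj.symm) w p q hpq
    have e : ∀ a : Fin 7, [f (some 0), f (some 1), f (some 2), f (some 3), f (some 4),
        f (some 5), f (some 6)].get a = f (some a) := by
      intro a; fin_cases a <;> rfl
    rw [e, e] at this
    exact hn this
  rcases ((fromRel_adj _ _ _).1 hab).2 with (⟨p, q, r, s, t⟩ | ⟨s, t⟩) | (⟨p, q, r, s, t⟩ | ⟨s, t⟩)
  · exact Or.inl (k p q r s t)
  · exact Or.inr (Or.inr (by rw [t]))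
  · exact Or.inl (k q p r.symm t s)
  · exact Or.inr (Or.inl (by rw [t]))

lemma P_intro {G : SimpleGraph V} {x y v c0 c1 c2 c3 c4 c5 z : V}
    (h : Wh (AE G x y) v c0 c1 c2 c3 c4 c5) (hz : z ∉ [c0, c1, c2, c3, c4, c5, v])
    (hv : AE G x y v z) (e : (x = c0 ∧ y = c1) ∨ (x = v ∧ y = z)) : (step PP G).Adj x y := by
  let f : Option (Fin 7) → V := fun o => o.elim z fun a => [c0, c1, c2, c3, c4, c5, v].get a
  have hf : Function.Injective f := by
    rintro (_ | a) (_ | b) hab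
    · rfl
    · have : z = [c0, c1, c2, c3, c4, c5, v].get b := hab
      exact absurd (List.mem_iff_get.2 ⟨_, this.symm⟩) hz
    · have : [c0, c1, c2, c3, c4, c5, v].get a = z := hab
      exact absurd (List.mem_iff_get.2 ⟨_, this⟩) hz
    · exact congrArg some (List.nodup_iff_injective_get.1 h.nd hab)
  have g : ∀ a b, PP.Adj a b → AE G x y (f a) (f b) := by
    intro a b hab
    rcases ((fromRel_adj _ _ _).1 hab).2 with
      (⟨p, q, r, rfl, rfl⟩ | ⟨rfl, rfl⟩) | (⟨p, q, r, rfl, rfl⟩ | ⟨rfl, rfl⟩)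
    · exact wh_to (AE_symm _ _ _) h p q r
    · exact AE_symm _ _ _ _ _ hv
    · exact wh_to (AE_symm _ _ _) h q p r.symm
    · exact hv
  rcases e with ⟨e1, e2⟩ | ⟨e1, e2⟩
  · exact step_intro f hf g (some 0) (some 1)
      (PP_some ((fromRel_adj _ _ _).2 ⟨by decide, Or.inl (by decide)⟩)) e1.symm e2.symm
  · exact step_intro f hf g (some 6) none
      ((fromRel_adj _ _ _).2 ⟨by simp, Or.inr (Or.inr ⟨rfl, rfl⟩)⟩) e1.symm e2.symm

def Univ (G : SimpleGraph V) (h : V) : Prop := ∀ y, y ≠ h → G.Adj h y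

lemma Wh.mono {R S : V → V → Prop} (k : ∀ a b, R a b → S a b) {v c0 c1 c2 c3 c4 c5 : V}
    (h : Wh R v c0 c1 c2 c3 c4 c5) : Wh S v c0 c1 c2 c3 c4 c5 :=
  ⟨h.nd, k _ _ h.r0, k _ _ h.r1, k _ _ h.r2, k _ _ h.r3, k _ _ h.r4, k _ _ h.r5,
    k _ _ h.s0, k _ _ h.s1, k _ _ h.s2, k _ _ h.s3, k _ _ h.s4, k _ _ h.s5⟩

lemma hub_univ {G : SimpleGraph V} {v c0 c1 c2 c3 c4 c5 : V} (h : Wh G.Adj v c0 c1 c2 c3 c4 c5) :
    Univ (step PP G) v := by
  intro y hy
  by_cases hz : y ∈ [c0, c1, c2, c3, c4, c5, v]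
  · refine le_step PP G ?_
    simp only [List.mem_cons, List.not_mem_nil, or_false] at hz
    rcases hz with rfl | rfl | rfl | rfl | rfl | rfl | rfl
    exacts [h.s0, h.s1, h.s2, h.s3, h.s4, h.s5, absurd rfl hy]
  · exact P_intro (h.mono fun _ _ => Or.inl) hz (Or.inr (Or.inl ⟨rfl, rfl⟩)) (Or.inr ⟨rfl, rfl⟩)

lemma close {n : ℕ} (hn : 8 ≤ n) {G : SimpleGraph (Fin n)} {h x0 x1 x2 x3 x4 x5 : Fin n}
    (hu : Univ G h) (nd : [x0, x1, x2, x3, x4, x5, h].Nodup) (e0 : G.Adj x0 x1) (e1 : G.Adj x1 x2)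
    (e2 : G.Adj x2 x3) (e3 : G.Adj x3 x4) (e4 : G.Adj x4 x5) : (step PP G).Adj x0 x5 := by
  obtain ⟨z, -, hz⟩ := Finset.exists_mem_notMem_of_card_lt_card (t := Finset.univ)
    (s := [x0, x5, x4, x3, x2, x1, h].toFinset)
    (((List.toFinset_card_le _).trans_lt (by simp; omega)))
  rw [List.mem_toFinset] at hz
  have k : ∀ y, y ≠ h → AE G x0 x5 h y := fun y hy => Or.inl (hu y hy)
  refine P_intro (c0 := x0) (c1 := x5) (c2 := x4) (c3 := x3) (c4 := x2) (c5 := x1) (v := h)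
    ⟨by grind, Or.inr (Or.inl ⟨rfl, rfl⟩), Or.inl e4.symm, Or.inl e3.symm, Or.inl e2.symm,
      Or.inl e1.symm, Or.inl e0.symm, k _ (by grind), k _ (by grind), k _ (by grind),
      k _ (by grind), k _ (by grind), k _ (by grind)⟩ hz (k _ (by grind)) (Or.inl ⟨rfl, rfl⟩)

end Pool.Agent.H.MP_7332c2_co
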