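import Mathlib

namespace Pool.Agent.H.MP_7332c2_co
open SimpleGraph

variable {V : Type}

/-- a growing sequence of graphs closing every path with five edges -/
structure Sys (E : ℕ → SimpleGraph V) : Prop where
  mono : Monotone E
  rule : ∀ t x0 x1 x2 x3 x4 x5, [x0, x1, x2, x3, x4, x5].Nodup → (E t).Adj x0 x1 →
    (E t).Adj x1 x2 → (E t).Adj x2 x3 → (E t).Adj x3 x4 → (E t).Adj x4 x5 → (E (t + 1)).Adj x0 x5

structure Cy (G : SimpleGraph V) (c0 c1 c2 c3 c4 c5 : V) : Prop where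
  nd : [c0, c1, c2, c3, c4, c5].Nodup
  r0 : G.Adj c0 c1
  r1 : G.Adj c1 c2
  r2 : G.Adj c2 c3
  r3 : G.Adj c3 c4
  r4 : G.Adj c4 c5
  r5 : G.Adj c5 c0

lemma Cy.rot {G : SimpleGraph V} {c0 c1 c2 c3 c4 c5 : V} (h : Cy G c0 c1 c2 c3 c4 c5) :
    Cy G c1 c2 c3 c4 c5 c0 := ⟨by have := h.nd; grind, h.r1, h.r2, h.r3, h.r4, h.r5, h.r0⟩

lemma Cy.mono {G G' : SimpleGraph V} (k : G ≤ G') {c0 c1 c2 c3 c4 c5 : V}
    (h : Cy G c0 c1 c2 c3 c4 c5) : Cy G' c0 c1 c2 c3 c4 c5 :=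
  ⟨h.nd, k h.r0, k h.r1, k h.r2, k h.r3, k h.r4, k h.r5⟩

def Lg (G : SimpleGraph V) (c0 c1 c2 c3 c4 c5 : V) : Prop :=
  G.Adj c0 c3 ∧ G.Adj c1 c4 ∧ G.Adj c2 c5

lemma Lg.rot {G : SimpleGraph V} {c0 c1 c2 c3 c4 c5 : V} (h : Lg G c1 c2 c3 c4 c5 c0) :
    Lg G c0 c1 c2 c3 c4 c5 := ⟨h.2.2.symm, h.1, h.2.1⟩

variable {E : ℕ → SimpleGraph V}

lemma long (S : Sys E) {t : ℕ} {c0 c1 c2 c3 c4 c5 : V} (h : Cy (E t) c0 c1 c2 c3 c4 c5)
    (a : (E t).Adj c0 c3) : Lg (E (t + 1)) c0 c1 c2 c3 c4 c5 := by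
  have := h.nd
  exact ⟨S.mono (Nat.le_succ t) a,
    S.rule t c1 c2 c3 c0 c5 c4 (by grind) h.r1 h.r2 a.symm h.r5.symm h.r4.symm,
    S.rule t c2 c1 c0 c3 c4 c5 (by grind) h.r1.symm h.r0.symm a h.r3 h.r4⟩

lemma one (S : Sys E) {t : ℕ} {c0 c1 c2 c3 c4 c5 z : V} (h : Cy (E t) c0 c1 c2 c3 c4 c5)
    (a : (E t).Adj c0 z) (h1 : z ≠ c1) (h5 : z ≠ c5) : Lg (E (t + 3)) c0 c1 c2 c3 c4 c5 := by
  have nd := h.nd
  have m := S.mono (Nat.le_succ t)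
  have h' := h.mono m
  have h'' := h.mono (S.mono (show t ≤ t + 2 by omega))
  by_cases e3 : z = c3
  · exact long S h'' (S.mono (show t ≤ t + 2 by omega) (e3 ▸ a))
  refine (long S h''.rot ?_).rot
  by_cases e2 : z = c2
  · subst e2
    have p := S.rule t c1 c0 z c3 c4 c5 (by grind) h.r0.symm a h.r2 h.r3 h.r4
    exact S.rule _ c1 c5 c0 z c3 c4 (by grind) p h'.r5 (m a) h'.r2 h'.r3
  by_cases e4 : z = c4
  · subst e4
    have p := S.rule t c5 c0 z c3 c2 c1 (by grind) h.r5 a h.r3.symm h.r2.symm h.r1.symm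
    have q := S.rule t c5 z c0 c1 c2 c3 (by grind) h.r4.symm a.symm h.r0 h.r1 h.r2
    exact S.rule _ c1 c2 c3 c5 c0 z (by grind) h'.r1 h'.r2 q.symm h'.r5 (m a)
  have e0 := a.ne
  have p := S.rule t z c0 c5 c4 c3 c2 (by grind) a.symm h.r5.symm h.r4.symm h.r3.symm h.r2.symm
  exact S.rule _ c1 c0 z c2 c3 c4 (by grind) h'.r0.symm (m a) p h'.r2 h'.r3

/-- only the cycle edges leave the cycle vertices -/
def Bare (G : SimpleGraph V) (c0 c1 c2 c3 c4 c5 : V) : Prop :=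
  (∀ z, G.Adj c0 z → z = c1 ∨ z = c5) ∧ (∀ z, G.Adj c1 z → z = c2 ∨ z = c0) ∧
  (∀ z, G.Adj c2 z → z = c3 ∨ z = c1) ∧ (∀ z, G.Adj c3 z → z = c4 ∨ z = c2) ∧
  (∀ z, G.Adj c4 z → z = c5 ∨ z = c3) ∧ (∀ z, G.Adj c5 z → z = c0 ∨ z = c4)

lemma notbare (S : Sys E) {t : ℕ} {c0 c1 c2 c3 c4 c5 : V} (h : Cy (E t) c0 c1 c2 c3 c4 c5)
    (hb : ¬ Bare (E t) c0 c1 c2 c3 c4 c5) : Lg (E (t + 3)) c0 c1 c2 c3 c4 c5 := by
  simp only [Bare, not_and_or, not_forall, not_or, exists_prop] at hb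
  rcases hb with ⟨z, a, b, c⟩ | ⟨z, a, b, c⟩ | ⟨z, a, b, c⟩ | ⟨z, a, b, c⟩ | ⟨z, a, b, c⟩ |
    ⟨z, a, b, c⟩
  · exact one S h a b c
  · exact (one S h.rot a b c).rot
  · exact (one S h.rot.rot a b c).rot.rot
  · exact (one S h.rot.rot.rot a b c).rot.rot.rot
  · exact (one S h.rot.rot.rot.rot a b c).rot.rot.rot.rot
  · exact (one S h.rot.rot.rot.rot.rot a b c).rot.rot.rot.rot.rot

/-- `y` is joined to the three vertices -/
def J (G : SimpleGraph V) (b0 b1 b2 y : V) : Prop := G.Adj y b0 ∧ G.Adj y b1 ∧ G.Adj y b2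

structure K33 (G : SimpleGraph V) (a0 a1 a2 b0 b1 b2 : V) : Prop where
  nd : [a0, a1, a2, b0, b1, b2].Nodup
  p0 : J G b0 b1 b2 a0
  p1 : J G b0 b1 b2 a1
  p2 : J G b0 b1 b2 a2

lemma J.mono {G G' : SimpleGraph V} (k : G ≤ G') {b0 b1 b2 y : V} (h : J G b0 b1 b2 y) :
    J G' b0 b1 b2 y := ⟨k h.1, k h.2.1, k h.2.2⟩

lemma K33.mono {G G' : SimpleGraph V} (k : G ≤ G') {a0 a1 a2 b0 b1 b2 : V}
    (h : K33 G a0 a1 a2 b0 b1 b2) : K33 G' a0 a1 a2 b0 b1 b2 :=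
  ⟨h.nd, h.p0.mono k, h.p1.mono k, h.p2.mono k⟩

lemma K33.swap {G : SimpleGraph V} {a0 a1 a2 b0 b1 b2 : V} (h : K33 G a0 a1 a2 b0 b1 b2) :
    K33 G b0 b1 b2 a0 a1 a2 :=
  ⟨by have := h.nd; grind, ⟨h.p0.1.symm, h.p1.1.symm, h.p2.1.symm⟩,
    ⟨h.p0.2.1.symm, h.p1.2.1.symm, h.p2.2.1.symm⟩, ⟨h.p0.2.2.symm, h.p1.2.2.symm, h.p2.2.2.symm⟩⟩

lemma K33.rot {G : SimpleGraph V} {a0 a1 a2 b0 b1 b2 : V} (h : K33 G a0 a1 a2 b0 b1 b2) :
    K33 G a1 a2 a0 b0 b1 b2 := ⟨by have := h.nd; grind, h.p1, h.p2, h.p0⟩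

lemma two {G : SimpleGraph V} {a0 a1 a2 b0 b1 b2 : V} (h : K33 G a0 a1 a2 b0 b1 b2) (x : V) :
    ∃ p q, p ≠ q ∧ p ≠ x ∧ q ≠ x ∧ (p = a0 ∨ p = a1 ∨ p = a2) ∧ (q = a0 ∨ q = a1 ∨ q = a2) := by
  have := h.nd
  by_cases e0 : x = a0
  · exact ⟨a1, a2, by grind⟩
  by_cases e1 : x = a1
  · exact ⟨a0, a2, by grind⟩
  · exact ⟨a0, a1, by grind⟩

lemma third {G : SimpleGraph V} {a0 a1 a2 b0 b1 b2 : V} (h : K33 G a0 a1 a2 b0 b1 b2) (x y : V) :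
    ∃ p, p ≠ x ∧ p ≠ y ∧ (p = a0 ∨ p = a1 ∨ p = a2) := by
  obtain ⟨p, q, a, b, c, d, e⟩ := two h x
  by_cases f : p = y
  · exact ⟨q, c, by grind, e⟩
  · exact ⟨p, b, f, d⟩

lemma J.of {G : SimpleGraph V} {b0 b1 b2 y b : V} (h : J G b0 b1 b2 y)
    (e : b = b0 ∨ b = b1 ∨ b = b2) : G.Adj y b := by
  rcases e with rfl | rfl | rfl
  exacts [h.1, h.2.1, h.2.2]

lemma K33.of {G : SimpleGraph V} {a0 a1 a2 b0 b1 b2 a : V} (h : K33 G a0 a1 a2 b0 b1 b2)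
    (e : a = a0 ∨ a = a1 ∨ a = a2) : J G b0 b1 b2 a := by
  rcases e with rfl | rfl | rfl
  exacts [h.p0, h.p1, h.p2]

lemma absorb1 (S : Sys E) {t : ℕ} {a0 a1 a2 b0 b1 b2 y z : V} (h : K33 (E t) a0 a1 a2 b0 b1 b2)
    (hy : J (E t) b0 b1 b2 y) (hz : (E t).Adj z y) (n : z ∉ [a0, a1, a2, b0, b1, b2]) :
    (E (t + 1)).Adj z a0 := by
  have nd := h.nd
  by_cases e : y = a0
  · exact S.mono (Nat.le_succ t) (e ▸ hz)
  obtain ⟨p, p1, p2, p3⟩ := third h y a0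
  have := hy.1.ne; have := hy.2.1.ne; have := hz.ne
  exact S.rule t z y b0 p b1 a0 (by grind) hz hy.1 (h.of p3).1.symm (h.of p3).2.1 h.p0.2.1.symm

lemma absorb (S : Sys E) {t : ℕ} {a0 a1 a2 b0 b1 b2 y z : V} (h : K33 (E t) a0 a1 a2 b0 b1 b2)
    (hy : J (E t) b0 b1 b2 y) (hz : (E t).Adj z y) :
    J (E (t + 1)) b0 b1 b2 z ∨ J (E (t + 1)) a0 a1 a2 z := by
  have h' := h.mono (S.mono (Nat.le_succ t))
  by_cases n : z ∈ [a0, a1, a2, b0, b1, b2]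
  · by_cases e : z = a0 ∨ z = a1 ∨ z = a2
    · exact Or.inl (h'.of e)
    · exact Or.inr (h'.swap.of (by simp at n; tauto))
  · exact Or.inr ⟨absorb1 S h hy hz n, absorb1 S h.rot hy hz (by simp at n ⊢; tauto),
      absorb1 S h.rot.rot hy hz (by simp at n ⊢; tauto)⟩

lemma absorbW (S : Sys E) {t : ℕ} {a0 a1 a2 b0 b1 b2 : V} (h : K33 (E t) a0 a1 a2 b0 b1 b2)
    {z : V} (w : (E t).Walk z a0) : J (E (t + w.length)) b0 b1 b2 z ∨
      J (E (t + w.length)) a0 a1 a2 z := by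
  generalize ha : a0 = a at w
  induction w with
  | nil => exact Or.inl (ha ▸ h.p0)
  | cons e w ih =>
    have m := S.mono (Nat.le_add_right t w.length)
    subst ha
    rcases ih rfl with g | g
    · exact absorb S (h.mono m) g (m e)
    · exact (absorb S (h.mono m).swap g (m e)).symm

lemma cross (S : Sys E) {t : ℕ} {a0 a1 a2 b0 b1 b2 a b : V} (h : K33 (E t) a0 a1 a2 b0 b1 b2)
    (ha : J (E t) b0 b1 b2 a) (hb : J (E t) a0 a1 a2 b) (ne : a ≠ b) : (E (t + 1)).Adj a b := by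
  have nd := h.nd
  obtain ⟨p, q, p1, p2, p3, p4, p5⟩ := two h a
  obtain ⟨r, s, q1, q2, q3, q4, q5⟩ := two h.swap b
  have := (ha.of q4).ne; have := (ha.of q5).ne; have := (hb.of p4).ne; have := (hb.of p5).ne
  exact S.rule t a r p s q b (by grind) (ha.of q4) ((h.of p4).of q4).symm ((h.of p4).of q5)
    ((h.of p5).of q5).symm (hb.of p5).symm

lemma inside (S : Sys E) {t : ℕ} {a0 a1 a2 b0 b1 b2 : V} (h : K33 (E t) a0 a1 a2 b0 b1 b2)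
    {A B : V → Prop} (hA : ∀ a, a = a0 ∨ a = a1 ∨ a = a2 → A a)
    (hB : ∀ b, b = b0 ∨ b = b1 ∨ b = b2 → B b) (dj : ∀ x, A x → ¬ B x)
    (c : ∀ a b, A a → B b → (E t).Adj a b) {a a' : V} (p : A a) (q : A a') (e : (E t).Adj a a')
    {x y : V} (hx : B x) (hy : B y) (ne : x ≠ y) : (E (t + 1)).Adj x y := by
  obtain ⟨r, r1, r2, r3⟩ := third h a a'
  obtain ⟨s, s1, s2, s3⟩ := third h.swap x y
  have := e.ne
  have := hA r r3; have := hB s s3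
  exact S.rule t x a a' s r y (by grind) (c _ _ p hx).symm e (c _ _ q ‹_›) (c _ _ ‹_› ‹_›).symm
    (c _ _ ‹_› hy)

/-- final structure of a set of small radius around a non-bare cycle -/
lemma finish (S : Sys E) {t : ℕ} {c0 c1 c2 c3 c4 c5 : V} (h : Cy (E t) c0 c1 c2 c3 c4 c5)
    (hb : ¬ Bare (E t) c0 c1 c2 c3 c4 c5) (K : V → Prop)
    (hK : ∀ z, K z → ∃ w : (E t).Walk z c0, w.length ≤ 5) :
    (∀ x y, K x → K y → x ≠ y → (E (t + 11)).Adj x y) ∨ ∃ A : V → Prop, A c0 ∧ A c2 ∧ A c4 ∧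
      ¬ A c1 ∧ ¬ A c3 ∧ ¬ A c5 ∧ (∀ x y, A x → K y → ¬ A y → (E (t + 9)).Adj x y) ∧
      (∀ x y, A x → A y → ¬ (E (t + 9)).Adj x y) ∧
      ∀ x y, (K x ∨ x = c1 ∨ x = c3 ∨ x = c5) → K y → ¬ A x → ¬ A y → ¬ (E (t + 9)).Adj x y := by
  have l := notbare S h hb
  have h3 := h.mono (S.mono (show t ≤ t + 3 by omega))
  have k : K33 (E (t + 3)) c0 c2 c4 c1 c3 c5 := ⟨by have := h.nd; grind, ⟨h3.r0, l.1, h3.r5.symm⟩,
    ⟨h3.r1.symm, h3.r2, l.2.2⟩, ⟨l.2.1.symm, h3.r3.symm, h3.r4⟩⟩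
  have k8 := k.mono (S.mono (show t + 3 ≤ t + 8 by omega))
  have k9 := k.mono (S.mono (show t + 3 ≤ t + 9 by omega))
  have k10 := k.mono (S.mono (show t + 3 ≤ t + 10 by omega))
  let A : V → Prop := J (E (t + 8)) c1 c3 c5
  let B : V → Prop := fun x => J (E (t + 8)) c0 c2 c4 x ∧ ¬ A x
  have cov : ∀ z, K z → ¬ A z → B z := by
    intro z hz hn
    obtain ⟨w, hw⟩ := hK z hz
    have := absorbW S k (w.mapLe (S.mono (show t ≤ t + 3 by omega)))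
    have m := S.mono (show t + 3 + (w.mapLe (S.mono (show t ≤ t + 3 by omega))).length ≤ t + 8 by
      simp only [Walk.length_mapLe]; omega)
    exact ⟨(this.resolve_left fun g => hn (g.mono m)).mono m, hn⟩
  have hA : ∀ a, a = c0 ∨ a = c2 ∨ a = c4 → A a := fun a e => k8.of e
  have hB : ∀ b, b = c1 ∨ b = c3 ∨ b = c5 → B b := fun b e => ⟨k8.swap.of e, fun g => (g.of e).ne rfl⟩
  have dj : ∀ x, A x → ¬ B x := fun x p q => q.2 p
  have c : ∀ a b, A a → B b → (E (t + 9)).Adj a b := fun a b p q =>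
    cross S k8 p q.1 fun e => q.2 (e ▸ p)
  have c' : ∀ a b, A a → B b → (E (t + 10)).Adj a b := fun a b p q =>
    S.mono (Nat.le_succ _) (c a b p q)
  have all : (∀ x y, A x → A y → x ≠ y → (E (t + 11)).Adj x y) →
      (∀ x y, B x → B y → x ≠ y → (E (t + 11)).Adj x y) →
      ∀ x y, K x → K y → x ≠ y → (E (t + 11)).Adj x y := by
    intro p q x y hx hy ne
    by_cases a : A x <;> by_cases b : A y
    · exact p x y a b ne
    · exact S.mono (Nat.le_succ _) (c' _ _ a (cov y hy b))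
    · exact S.mono (Nat.le_succ _) (c' _ _ b (cov x hx a)).symm
    · exact q x y (cov x hx a) (cov y hy b) ne
  have nd := h.nd
  by_cases iA : ∀ x y, A x → A y → ¬ (E (t + 9)).Adj x y
  · by_cases iB : ∀ x y, B x → B y → ¬ (E (t + 9)).Adj x y
    · refine Or.inr ⟨A, hA _ (by simp), hA _ (by simp), hA _ (by simp), (hB _ (by simp)).2,
        (hB _ (by simp)).2, (hB _ (by simp)).2, fun x y p q r => c x y p (cov y q r), iA,
        fun x y p q r s => iB x y (p.elim (fun p => cov x p r) (hB x)) (cov y q s)⟩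
    · push Not at iB
      obtain ⟨x, y, p, q, e⟩ := iB
      have f : ∀ x y, A x → A y → x ≠ y → (E (t + 10)).Adj x y := fun u v a b ne =>
        inside S k9.swap hB hA (fun x p q => dj x q p) (fun a b p q => (c b a q p).symm) p q e a b ne
      refine Or.inl (all (fun u v a b ne => S.mono (Nat.le_succ _) (f u v a b ne)) fun u v a b ne =>
        inside S k10 hA hB dj c' (hA c0 (by simp)) (hA c2 (by simp))
          (f _ _ (hA c0 (by simp)) (hA c2 (by simp)) (by grind)) a b ne)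
  · push Not at iA
    obtain ⟨x, y, p, q, e⟩ := iA
    have f : ∀ x y, B x → B y → x ≠ y → (E (t + 10)).Adj x y := fun u v a b ne =>
      inside S k9 hA hB dj c p q e a b ne
    refine Or.inl (all (fun u v a b ne => ?_) fun u v a b ne => S.mono (Nat.le_succ _) (f u v a b ne))
    exact inside S k10.swap hB hA (fun x p q => dj x q p) (fun a b p q => (c' b a q p).symm)
      (hB c1 (by simp)) (hB c3 (by simp)) (f _ _ (hB c1 (by simp)) (hB c3 (by simp)) (by grind)) a b ne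

end Pool.Agent.H.MP_7332c2_co
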