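import Pool.Agent.H.MP_7332c2_co.A
import Pool.Agent.H.MP_7332c2_co.B

namespace Pool.Agent.H.MP_7332c2_co
open SimpleGraph

variable {V : Type} {E : ℕ → SimpleGraph V}

lemma nd6 (a b c d e f : V) : [a, b, c, d, e, f].Nodup ↔ (a ≠ b ∧ a ≠ c ∧ a ≠ d ∧ a ≠ e ∧ a ≠ f) ∧
    (b ≠ c ∧ b ≠ d ∧ b ≠ e ∧ b ≠ f) ∧ (c ≠ d ∧ c ≠ e ∧ c ≠ f) ∧ (d ≠ e ∧ d ≠ f) ∧ e ≠ f := by
  simp

lemma nd7 (a b c d e f g : V) : [a, b, c, d, e, f, g].Nodup ↔
    (a ≠ b ∧ a ≠ c ∧ a ≠ d ∧ a ≠ e ∧ a ≠ f ∧ a ≠ g) ∧ (b ≠ c ∧ b ≠ d ∧ b ≠ e ∧ b ≠ f ∧ b ≠ g) ∧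
    (c ≠ d ∧ c ≠ e ∧ c ≠ f ∧ c ≠ g) ∧ (d ≠ e ∧ d ≠ f ∧ d ≠ g) ∧ (e ≠ f ∧ e ≠ g) ∧ f ≠ g := by
  simp

lemma shrink (S : Sys E) (t : ℕ) (d : ℕ) : ∀ x y (w : (E t).Walk x y), w.length ≤ d →
    ∃ w' : (E (t + 1)).Walk x y, w'.length ≤ d / 5 + 4 := by
  classical
  induction d using Nat.strong_induction_on with
  | _ d ih =>
  intro x y w hw
  have hp := w.bypass_isPath
  have hl := w.length_bypass_le_length.trans hw
  generalize w.bypass = p at hp hl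
  by_cases h4 : p.length ≤ 4
  · exact ⟨p.mapLe (S.mono (Nat.le_succ t)), by simp only [Walk.length_mapLe]; omega⟩
  match p, hp, hl, h4 with
  | .cons e0 (.cons e1 (.cons e2 (.cons e3 (.cons e4 q)))), hp, hl, _ =>
    simp only [Walk.length_cons] at hl
    obtain ⟨q', hq⟩ := ih (d - 5) (by omega) _ _ q (by omega)
    refine ⟨.cons (S.rule t _ _ _ _ _ _ ?_ e0 e1 e2 e3 e4) q', by simp only [Walk.length_cons]; omega⟩
    have := hp.support_nodup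
    simp only [Walk.support_cons] at this
    rw [← q.cons_tail_support] at this
    grind [nd6, nd7]
  | .nil, _, _, h => simp at h
  | .cons _ .nil, _, _, h => simp at h
  | .cons _ (.cons _ .nil), _, _, h => simp at h
  | .cons _ (.cons _ (.cons _ .nil)), _, _, h => simp at h
  | .cons _ (.cons _ (.cons _ (.cons _ .nil))), _, _, h => simp at h

lemma shrinkI (S : Sys E) (n : ℕ) {x y : V} (w : (E 0).Walk x y) (hw : w.length ≤ n) (j : ℕ) :
    ∃ w' : (E j).Walk x y, w'.length ≤ n / 5 ^ j + 5 := by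
  induction j with
  | zero => exact ⟨w, by simp; omega⟩
  | succ j ih =>
    obtain ⟨p, hp⟩ := ih
    obtain ⟨q, hq⟩ := shrink S j _ _ _ p hp
    refine ⟨q, ?_⟩
    rw [pow_succ, ← Nat.div_div_eq_div_mul]
    omega

def P6 (G : SimpleGraph V) (x y : V) : Prop := ∃ x1 x2 x3 x4, [x, x1, x2, x3, x4, y].Nodup ∧
  G.Adj x x1 ∧ G.Adj x1 x2 ∧ G.Adj x2 x3 ∧ G.Adj x3 x4 ∧ G.Adj x4 y

lemma Bare.rot {G : SimpleGraph V} {c0 c1 c2 c3 c4 c5 : V} (h : Bare G c0 c1 c2 c3 c4 c5) :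
    Bare G c1 c2 c3 c4 c5 c0 := ⟨h.2.1, h.2.2.1, h.2.2.2.1, h.2.2.2.2.1, h.2.2.2.2.2, h.1⟩

lemma bare_path {G : SimpleGraph V} {c0 c1 c2 c3 c4 c5 b : V} (h : Cy G c0 c1 c2 c3 c4 c5)
    (hb : Bare G c0 c1 c2 c3 c4 c5) (p : P6 G c0 b) : G.Adj c0 b := by
  obtain ⟨x1, x2, x3, x4, nd, e0, e1, e2, e3, e4⟩ := p
  obtain ⟨b0, b1, b2, b3, b4, b5⟩ := hb
  rcases b0 _ e0 with rfl | rfl
  · obtain rfl : x2 = c2 := (b1 _ e1).resolve_right (by grind [nd6, nd7])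
    obtain rfl : x3 = c3 := (b2 _ e2).resolve_right (by grind [nd6, nd7])
    obtain rfl : x4 = c4 := (b3 _ e3).resolve_right (by grind [nd6, nd7])
    obtain rfl : b = c5 := (b4 _ e4).resolve_right (by grind [nd6, nd7])
    exact h.r5.symm
  · obtain rfl : x2 = c4 := (b5 _ e1).resolve_left (by grind [nd6, nd7])
    obtain rfl : x3 = c3 := (b4 _ e2).resolve_left (by grind [nd6, nd7])
    obtain rfl : x4 = c2 := (b3 _ e3).resolve_left (by grind [nd6, nd7])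
    obtain rfl : b = c1 := (b2 _ e4).resolve_left (by grind [nd6, nd7])
    exact h.r0

lemma caseB (S : Sys E) (n j : ℕ) (hj : n < 5 ^ j)
    (NB : ∀ t ≤ j + 12, ∀ x y, (E (t + 1)).Adj x y → (E t).Adj x y ∨ P6 (E t) x y)
    (dm : ∀ x y, (E 0).Reachable x y → ∃ w : (E 0).Walk x y, w.length ≤ n) (x y : V)
    (hp : P6 (E (j + 12)) x y) : (E (j + 12)).Adj x y := by
  by_contra hn
  let K : V → Prop := (E 0).Reachable x
  have cl : ∀ t ≤ j + 12, ∀ a b, K a → (E t).Adj a b → K b := by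
    intro t
    induction t with
    | zero => exact fun _ a b p q => p.trans q.reachable
    | succ t ih =>
      intro ht a b p q
      have ih := ih (by omega)
      rcases NB t (by omega) a b q with g | ⟨x1, x2, x3, x4, -, e0, e1, e2, e3, e4⟩
      · exact ih a b p g
      · exact ih _ _ (ih _ _ (ih _ _ (ih _ _ (ih _ _ p e0) e1) e2) e3) e4
  let St : ℕ → Prop := fun t => ∀ a b, K a → P6 (E t) a b → (E t).Adj a b
  have st : ∀ t < j + 12, St t → St (t + 1) := by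
    intro t ht s a b p ⟨x1, x2, x3, x4, nd, e0, e1, e2, e3, e4⟩
    have k : ∀ a b, K a → (E (t + 1)).Adj a b → (E t).Adj a b := fun a b p q =>
      (NB t (by omega) a b q).elim id (s a b p)
    have c := cl (t + 1) (by omega)
    have k1 := c _ _ p e0
    have k2 := c _ _ k1 e1
    have k3 := c _ _ k2 e2
    have k4 := c _ _ k3 e3
    exact S.mono (Nat.le_succ t)
      (s a b p ⟨x1, x2, x3, x4, nd, k _ _ p e0, k _ _ k1 e1, k _ _ k2 e2, k _ _ k3 e3, k _ _ k4 e4⟩)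
  have ns : ∀ t ≤ j + 12, ¬ St t := by
    intro t ht s
    have : ∀ u, t ≤ u → u ≤ j + 12 → St u := by
      intro u hu
      induction u, hu using Nat.le_induction with
      | base => exact fun _ => s
      | succ u _ ih => exact fun h => st u (by omega) (ih (by omega))
    exact hn (this _ ht le_rfl x y (Reachable.refl x) hp)
  have n0 := ns j (by omega)
  simp only [St, not_forall] at n0
  obtain ⟨c0, c5, k0, ⟨c1, c2, c3, c4, nd, e0, e1, e2, e3, e4⟩, -⟩ := n0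
  have m := S.mono (Nat.le_succ j)
  have cy : Cy (E (j + 1)) c0 c1 c2 c3 c4 c5 :=
    ⟨nd, m e0, m e1, m e2, m e3, m e4, (S.rule j _ _ _ _ _ _ nd e0 e1 e2 e3 e4).symm⟩
  have nb : ¬ Bare (E (j + 1)) c0 c1 c2 c3 c4 c5 := by
    intro hb
    refine ns (j + 1) (by omega) fun a b p q => ?_
    have : ∀ u v (w : (E 0).Walk u v), u = c0 ∨ u = c1 ∨ u = c2 ∨ u = c3 ∨ u = c4 ∨ u = c5 →
        v = c0 ∨ v = c1 ∨ v = c2 ∨ v = c3 ∨ v = c4 ∨ v = c5 := by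
      intro u v w
      induction w with
      | nil => exact id
      | cons e w ih =>
        intro hu
        have e := S.mono (Nat.zero_le (j + 1)) e
        obtain ⟨b0, b1, b2, b3, b4, b5⟩ := hb
        refine ih ?_
        rcases hu with rfl | rfl | rfl | rfl | rfl | rfl
        exacts [by have := b0 _ e; tauto, by have := b1 _ e; tauto, by have := b2 _ e; tauto,
          by have := b3 _ e; tauto, by have := b4 _ e; tauto, by have := b5 _ e; tauto]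
    obtain ⟨w⟩ := k0.symm.trans p
    rcases this _ _ w (Or.inl rfl) with rfl | rfl | rfl | rfl | rfl | rfl
    exacts [bare_path cy hb q, bare_path cy.rot hb.rot q, bare_path cy.rot.rot hb.rot.rot q,
      bare_path cy.rot.rot.rot hb.rot.rot.rot q, bare_path cy.rot.rot.rot.rot hb.rot.rot.rot.rot q,
      bare_path cy.rot.rot.rot.rot.rot hb.rot.rot.rot.rot.rot q]
  rcases finish S cy nb K (fun z hz => by
      obtain ⟨w, hw⟩ := dm z c0 (hz.symm.trans k0)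
      obtain ⟨w', hw'⟩ := shrinkI S n w hw j
      rw [Nat.div_eq_of_lt hj] at hw'
      exact ⟨w'.mapLe m, by simpa only [Walk.length_mapLe] using hw'⟩) with
    g | ⟨A, -, -, -, -, -, -, c, iA, iB⟩
  · obtain ⟨x1, x2, x3, x4, nd, e0, e1, e2, e3, e4⟩ := hp
    have c := cl _ le_rfl
    have kx : K x := Reachable.refl x
    exact hn (g x y kx (c _ _ (c _ _ (c _ _ (c _ _ (c _ _ kx e0) e1) e2) e3) e4) (by grind [nd6, nd7]))
  · refine ns (j + 10) (by omega) fun a b p ⟨x1, x2, x3, x4, nd, e0, e1, e2, e3, e4⟩ => ?_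
    have d := cl (j + 10) (by omega)
    have k1 := d _ _ p e0
    have k2 := d _ _ k1 e1
    have k3 := d _ _ k2 e2
    have k4 := d _ _ k3 e3
    have k5 := d _ _ k4 e4
    have f : ∀ u v, K u → K v → (E (j + 10)).Adj u v → (A u ↔ ¬ A v) := fun u v p q e =>
      ⟨fun a b => iA u v a b e, fun b => by_contra fun a => iB u v (Or.inl p) q a b e⟩
    have := f _ _ p k1 e0; have := f _ _ k1 k2 e1; have := f _ _ k2 k3 e2
    have := f _ _ k3 k4 e3; have := f _ _ k4 k5 e4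
    by_cases ha : A a
    · exact c a b ha k5 (by tauto)
    · exact (c b a (by tauto) p ha).symm

lemma caseA (S : Sys E) {t : ℕ} {c0 c1 c2 c3 c4 c5 g : V} (cy : Cy (E t) c0 c1 c2 c3 c4 c5)
    (K : V → Prop) (hK : ∀ x y, (E t).Adj x y → K x) (kg : K g)
    (hg : ∀ y, K y → y ≠ g → (E t).Adj g y) : ∀ x y, K x → K y → x ≠ y → (E (t + 11)).Adj x y := by
  have nd := cy.nd
  have k0 := hK _ _ cy.r0
  have k1 := hK _ _ cy.r1
  have k2 := hK _ _ cy.r2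
  have k3 := hK _ _ cy.r3
  have nb : ¬ Bare (E t) c0 c1 c2 c3 c4 c5 := by
    rintro ⟨b0, -, -, b3, -, -⟩
    by_cases e0 : c0 = g
    · have := b0 c3 (e0 ▸ hg c3 k3 (by grind [nd6, nd7])); grind [nd6, nd7]
    by_cases e3 : c3 = g
    · have := b3 c0 (e3 ▸ hg c0 k0 (by grind [nd6, nd7])); grind [nd6, nd7]
    have := b0 g (hg _ k0 e0).symm
    have := b3 g (hg _ k3 e3).symm
    grind [nd6, nd7]
  have m := S.mono (Nat.le_add_right t 9)
  rcases finish S cy nb K (fun z hz => by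
      by_cases e : z = c0
      · exact ⟨(Walk.nil).copy e.symm rfl, by simp⟩
      by_cases e0 : c0 = g
      · exact ⟨(e0 ▸ (hg z hz (e0 ▸ e)).symm : (E t).Adj z c0).toWalk, by simp⟩
      by_cases e1 : z = g
      · exact ⟨(e1 ▸ hg c0 k0 e0 : (E t).Adj z c0).toWalk, by simp⟩
      exact ⟨.cons (hg z hz e1).symm (hg c0 k0 e0).toWalk, by simp⟩) with
    p | ⟨A, a0, a2, -, a1, a3, -, -, iA, iB⟩
  · exact p
  exfalso
  by_cases a : A g
  · by_cases e : c0 = g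
    · exact iA _ _ a a2 (m (hg c2 k2 (by grind [nd6, nd7])))
    · exact iA _ _ a a0 (m (hg c0 k0 e))
  · by_cases e : c1 = g
    · exact iB _ _ (Or.inl kg) k3 a a3 (m (hg c3 k3 (by grind [nd6, nd7])))
    · exact iB _ _ (Or.inl kg) k1 a a1 (m (hg c1 k1 e))

lemma Wh.rot {R : V → V → Prop} {v c0 c1 c2 c3 c4 c5 : V} (h : Wh R v c0 c1 c2 c3 c4 c5) :
    Wh R v c1 c2 c3 c4 c5 c0 := ⟨by have := h.nd; grind [nd6, nd7], h.r1, h.r2, h.r3, h.r4, h.r5, h.r0,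
      h.s1, h.s2, h.s3, h.s4, h.s5, h.s0⟩

def del (G : SimpleGraph V) (h : V) : SimpleGraph V where
  Adj x y := G.Adj x y ∧ x ≠ h ∧ y ≠ h
  symm := ⟨fun _ _ a => ⟨a.1.symm, a.2.2, a.2.1⟩⟩
  loopless := ⟨fun _ a => a.1.ne rfl⟩

lemma rim {G : SimpleGraph V} {x y v c0 c1 c2 c3 c4 c5 : V}
    (h : Wh (AE G x y) v c0 c1 c2 c3 c4 c5) (n : ¬ G.Adj c0 c1) : P6 (del G v) x y := by
  have nd := h.nd
  have k : ∀ a b, AE G x y a b → a ≠ v → b ≠ v → (a ≠ c0 ∧ a ≠ c1) ∨ (b ≠ c0 ∧ b ≠ c1) →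
      (del G v).Adj a b := by
    intro a b p q r s
    have := h.r0
    unfold AE at *
    exact ⟨by grind [nd6, nd7], q, r⟩
  have e1 := k _ _ h.r1 (by grind [nd6, nd7]) (by grind [nd6, nd7]) (by grind [nd6, nd7])
  have e2 := k _ _ h.r2 (by grind [nd6, nd7]) (by grind [nd6, nd7]) (by grind [nd6, nd7])
  have e3 := k _ _ h.r3 (by grind [nd6, nd7]) (by grind [nd6, nd7]) (by grind [nd6, nd7])
  have e4 := k _ _ h.r4 (by grind [nd6, nd7]) (by grind [nd6, nd7]) (by grind [nd6, nd7])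
  have e5 := k _ _ h.r5 (by grind [nd6, nd7]) (by grind [nd6, nd7]) (by grind [nd6, nd7])
  rcases h.r0.resolve_left n with ⟨rfl, rfl⟩ | ⟨rfl, rfl⟩
  · exact ⟨c5, c4, c3, c2, by grind [nd6, nd7], e5.symm, e4.symm, e3.symm, e2.symm, e1.symm⟩
  · exact ⟨c2, c3, c4, c5, by grind [nd6, nd7], e1, e2, e3, e4, e5⟩

lemma fan {G : SimpleGraph V} {v c0 c1 c2 c3 c4 c5 : V} (h : Wh G.Adj v c0 c1 c2 c3 c4 c5) :
    Cy (del G c0) v c1 c2 c3 c4 c5 := by
  have nd := h.nd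
  exact ⟨by grind [nd6, nd7], ⟨h.s1, by grind [nd6, nd7]⟩, ⟨h.r1, by grind [nd6, nd7]⟩, ⟨h.r2, by grind [nd6, nd7]⟩, ⟨h.r3, by grind [nd6, nd7]⟩,
    ⟨h.r4, by grind [nd6, nd7]⟩, ⟨h.s5.symm, by grind [nd6, nd7]⟩⟩

lemma cyc {G : SimpleGraph V} {v c0 c1 c2 c3 c4 c5 : V} (h : Wh G.Adj v c0 c1 c2 c3 c4 c5) (g : V) :
    ∃ d0 d1 d2 d3 d4 d5, Cy (del G g) d0 d1 d2 d3 d4 d5 := by
  by_cases e : g = c0 ∨ g = c1 ∨ g = c2 ∨ g = c3 ∨ g = c4 ∨ g = c5
  · rcases e with rfl | rfl | rfl | rfl | rfl | rfl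
    exacts [⟨_, _, _, _, _, _, fan h⟩, ⟨_, _, _, _, _, _, fan h.rot⟩,
      ⟨_, _, _, _, _, _, fan h.rot.rot⟩, ⟨_, _, _, _, _, _, fan h.rot.rot.rot⟩,
      ⟨_, _, _, _, _, _, fan h.rot.rot.rot.rot⟩, ⟨_, _, _, _, _, _, fan h.rot.rot.rot.rot.rot⟩]
  · have nd := h.nd
    exact ⟨c0, c1, c2, c3, c4, c5, by grind [nd6, nd7], ⟨h.r0, by grind [nd6, nd7]⟩, ⟨h.r1, by grind [nd6, nd7]⟩, ⟨h.r2, by grind [nd6, nd7]⟩,
      ⟨h.r3, by grind [nd6, nd7]⟩, ⟨h.r4, by grind [nd6, nd7]⟩, ⟨h.r5, by grind [nd6, nd7]⟩⟩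

lemma upper {n j : ℕ} (hn : 8 ≤ n) (hj : n < 5 ^ j) : maxTime PP n ≤ j + 30 := by
  classical
  refine ciSup_le fun G0 => ?_
  by_contra hc
  let G : ℕ → SimpleGraph (Fin n) := fun t => (step PP)^[t] G0
  have mo : Monotone G := iter_mono PP G0
  have gs : ∀ t, G (t + 1) = step PP (G t) := fun t => Function.iterate_succ_apply' _ _ _
  have un : ∀ t ≤ j + 30, ∃ x y, (G (t + 1)).Adj x y ∧ ¬ (G t).Adj x y := by
    intro t ht
    by_contra hx
    push Not at hx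
    exact hc ((Nat.sInf_le (show G t = G (t + 1) from le_antisymm (mo (Nat.le_succ t)) hx)).trans ht)
  have nw : ∀ t x y, (G (t + 1)).Adj x y → ¬ (G t).Adj x y → ∃ v c0 c1 c2 c3 c4 c5,
      Wh (AE (G t) x y) v c0 c1 c2 c3 c4 c5 ∧ Wh (G (t + 1)).Adj v c0 c1 c2 c3 c4 c5 ∧
      Univ (G (t + 2)) v ∧ (¬ Wh (G t).Adj v c0 c1 c2 c3 c4 c5 ∨ v = x ∨ v = y) := by
    intro t x y p q
    obtain ⟨v, c0, c1, c2, c3, c4, c5, w, r⟩ := P_inv (gs t ▸ p) q
    have w' : Wh (G (t + 1)).Adj v c0 c1 c2 c3 c4 c5 := w.mono (by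
      rintro a b (e | ⟨rfl, rfl⟩ | ⟨rfl, rfl⟩)
      exacts [mo (Nat.le_succ t) e, p, p.symm])
    exact ⟨v, c0, c1, c2, c3, c4, c5, w, w', gs (t + 1) ▸ hub_univ w', r⟩
  obtain ⟨x, y, p, q⟩ := un 0 (by omega)
  obtain ⟨h, -, -, -, -, -, -, -, -, hu, -⟩ := nw 0 x y p q
  clear p q x y
  have um : ∀ s t g, s ≤ t → Univ (G s) g → Univ (G t) g := fun s t g a b y c => mo a (b y c)
  have S : Sys fun t => del (G (t + 2)) h :=
    ⟨fun s t a x y e => ⟨mo (by omega) e.1, e.2⟩, fun t x0 x1 x2 x3 x4 x5 nd e0 e1 e2 e3 e4 =>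
      ⟨gs (t + 2) ▸ close hn (um _ _ h (by omega) hu) (by
        have := e0.2; have := e2.2; have := e4.2; grind [nd6, nd7]) e0.1 e1.1 e2.1 e3.1 e4.1, e0.2.1, e4.2.2⟩⟩
  have hh : ∀ t, 2 ≤ t → ∀ x y, x ≠ y → ¬ (G t).Adj x y → x ≠ h ∧ y ≠ h := fun t a x y b c =>
    ⟨fun e => c (e ▸ um _ _ h a hu y (e ▸ b.symm)), fun e => c (e ▸ um _ _ h a hu x (e ▸ b)).symm⟩
  by_cases h2 : ∃ g, g ≠ h ∧ Univ (G (j + 17)) g
  · obtain ⟨g, g1, g2⟩ := h2
    obtain ⟨x, y, p, q⟩ := un (j + 17) (by omega)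
    obtain ⟨v, c0, c1, c2, c3, c4, c5, -, w, -⟩ := nw _ x y p q
    obtain ⟨d0, d1, d2, d3, d4, d5, cy⟩ := cyc w h
    have := caseA S (t := j + 16) cy (· ≠ h) (fun x y e => e.2.1) g1
      fun y a b => ⟨um _ _ g (by omega) g2 y b, g1, a⟩
    obtain ⟨x, y, p, q⟩ := un (j + 29) (by omega)
    obtain ⟨a, b⟩ := hh _ (by omega) x y p.ne q
    exact q (this x y a b p.ne).1
  push Not at h2
  have NB : ∀ t ≤ j + 12, ∀ x y, (G (t + 3)).Adj x y → ¬ (G (t + 2)).Adj x y →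
      P6 (del (G (t + 2)) h) x y := by
    intro t ht x y p q
    obtain ⟨a, b⟩ := hh _ (by omega) x y p.ne q
    obtain ⟨v, c0, c1, c2, c3, c4, c5, w, -, u, r⟩ := nw _ x y p q
    obtain rfl : v = h := by_contra fun e => h2 v e (um _ _ v (by omega) u)
    have r := (r.resolve_right (by tauto))
    have k : ∀ c, AE (G (t + 2)) x y v c → (G (t + 2)).Adj v c := by
      rintro c (e | e | e)
      exacts [e, absurd e.1.symm a, absurd e.1.symm b]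
    by_contra hp
    exact r ⟨w.nd, by_contra fun e => hp (rim w e), by_contra fun e => hp (rim w.rot e),
      by_contra fun e => hp (rim w.rot.rot e), by_contra fun e => hp (rim w.rot.rot.rot e),
      by_contra fun e => hp (rim w.rot.rot.rot.rot e),
      by_contra fun e => hp (rim w.rot.rot.rot.rot.rot e),
      k _ w.s0, k _ w.s1, k _ w.s2, k _ w.s3, k _ w.s4, k _ w.s5⟩
  obtain ⟨x, y, p, q⟩ := un (j + 14) (by omega)
  refine q (caseB S n j hj (fun t ht x y e => ?_) (fun x y ⟨w⟩ => ?_) x y (NB _ le_rfl x y p q)).1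
  · by_cases f : (G (t + 2)).Adj x y
    · exact Or.inl ⟨f, e.2⟩
    · exact Or.inr (NB t ht x y e.1 f)
  · exact ⟨w.bypass, by simpa using w.bypass_isPath.length_lt.le⟩

end Pool.Agent.H.MP_7332c2_co
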