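import Mathlib

namespace Pool.Agent.H.MP_7332c2_co

/-- One round of the `H`-process: add every pair `xy` such that `G + xy` has a copy of `H`
using the edge `xy`. -/
def step {W V : Type} (H : SimpleGraph W) (G : SimpleGraph V) : SimpleGraph V :=
  G ⊔ SimpleGraph.fromRel fun x y =>
    ∃ f : H.Copy (G ⊔ SimpleGraph.edge x y), ∃ a b, H.Adj a b ∧ f a = x ∧ f b = y

/-- Running time: the first `t` with `G_t = G_{t+1}`. -/
noncomputable def tau {W V : Type} (H : SimpleGraph W) (G : SimpleGraph V) : ℕ :=
  sInf {t | (step H)^[t] G = (step H)^[t + 1] G}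

/-- Maximum running time over `n`-vertex starting graphs. -/
noncomputable def maxTime {W : Type} (H : SimpleGraph W) (n : ℕ) : ℕ :=
  ⨆ G : SimpleGraph (Fin n), tau H G

/-- `H` with a new vertex `none` joined only to `u`. -/
def pend {W : Type} (H : SimpleGraph W) (u : W) : SimpleGraph (Option W) :=
  SimpleGraph.fromRel fun x y =>
    (∃ a b, H.Adj a b ∧ x = some a ∧ y = some b) ∨ (x = none ∧ y = some u)

end Pool.Agent.H.MP_7332c2_co
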