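import Pool.Agent.H.MP_7332c2_co.C

namespace Pool.Agent.H.MP_7332c2_co
open SimpleGraph

lemma hubP6 {V : Type} {G : SimpleGraph V} {x y v c0 c1 c2 c3 c4 c5 : V}
    (w : Wh (AE G x y) v c0 c1 c2 c3 c4 c5) (r : ¬ Wh G.Adj v c0 c1 c2 c3 c4 c5) (a : x ≠ v)
    (b : y ≠ v) : P6 (del G v) x y := by
  have k : ∀ c, AE G x y v c → G.Adj v c := by
    rintro c (e | e | e)
    exacts [e, absurd e.1.symm a, absurd e.1.symm b]
  by_contra hp
  exact r ⟨w.nd, by_contra fun e => hp (rim w e), by_contra fun e => hp (rim w.rot e),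
    by_contra fun e => hp (rim w.rot.rot e), by_contra fun e => hp (rim w.rot.rot.rot e),
    by_contra fun e => hp (rim w.rot.rot.rot.rot e),
    by_contra fun e => hp (rim w.rot.rot.rot.rot.rot e),
    k _ w.s0, k _ w.s1, k _ w.s2, k _ w.s3, k _ w.s4, k _ w.s5⟩

lemma lowerP (k : ℕ) (hk : 2 ≤ k) : 4 * k + 1 ≤ 5 ^ maxTime PP (4 * k + 3) := by
  let h : Fin (4 * k + 3) := Fin.last _
  let G0 : SimpleGraph (Fin (4 * k + 3)) := fromRel fun x y => x = h ∨ x.val + 1 = y.val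
  let G : ℕ → SimpleGraph (Fin (4 * k + 3)) := fun t => (step PP)^[t] G0
  have mo : Monotone G := iter_mono PP G0
  have gs : ∀ t, G (t + 1) = step PP (G t) := fun t => Function.iterate_succ_apply' _ _ _
  have inv : ∀ t x y, (del (G t) h).Adj x y →
      (x.val + y.val) % 2 = 1 ∧ x.val ≤ y.val + 5 ^ t ∧ y.val ≤ x.val + 5 ^ t := by
    intro t
    induction t with
    | zero =>
      rintro x y ⟨e, a, b⟩
      have := ((fromRel_adj _ _ _).1 e).2
      simp only [a, b, false_or] at this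
      omega
    | succ t ih =>
      rintro x y ⟨e, a, b⟩
      rw [pow_succ]
      by_cases f : (G t).Adj x y
      · have := ih x y ⟨f, a, b⟩
        omega
      obtain ⟨v, c0, c1, c2, c3, c4, c5, w, r⟩ := P_inv (gs t ▸ e) f
      by_cases hv : v = h
      · subst hv
        obtain ⟨x1, x2, x3, x4, -, e0, e1, e2, e3, e4⟩ := hubP6 w (r.resolve_right (by tauto)) a b
        have := ih _ _ e0; have := ih _ _ e1; have := ih _ _ e2; have := ih _ _ e3
        have := ih _ _ e4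
        omega
      exfalso
      have tri : ∀ p q, AE (G t) x y v p → AE (G t) x y v q → AE (G t) x y p q →
          p = h ∨ q = h ∨ ((x = v ∨ x = p ∨ x = q) ∧ (y = v ∨ y = p ∨ y = q)) := by
        intro p q e1 e2 e3
        by_contra hc
        have e1 := ih _ _ ⟨e1.resolve_right (by tauto), hv, by tauto⟩
        have e2 := ih _ _ ⟨e2.resolve_right (by tauto), hv, by tauto⟩
        have e3 := ih _ _ ⟨e3.resolve_right (by tauto), by tauto, by tauto⟩
        omega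
      have := tri _ _ w.s0 w.s1 w.r0
      have := tri _ _ w.s2 w.s3 w.r2
      have := tri _ _ w.s4 w.s5 w.r4
      have := (nd7 _ _ _ _ _ _ _).1 w.nd
      have := e.ne
      grind
  have st : step PP (G (tau PP G0)) = G (tau PP G0) := tau_spec PP G0
  have g0 : ∀ x y, x ≠ y → (x = h ∨ x.val + 1 = y.val) → (G (tau PP G0)).Adj x y := fun x y a b =>
    mo (Nat.zero_le _) ((fromRel_adj _ _ _).2 ⟨a, Or.inl b⟩)
  have hu : Univ (G (tau PP G0)) h := fun y a => g0 _ _ a.symm (Or.inl rfl)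
  have key : ∀ i, ∀ hi : i ≤ k, (G (tau PP G0)).Adj 0 ⟨4 * i + 1, by omega⟩ := by
    intro i
    induction i with
    | zero => exact fun _ => g0 _ _ (by simp) (Or.inr (by simp))
    | succ i ih =>
      intro hi
      rw [← st]
      refine close (by omega) (x2 := ⟨4 * i + 2, by omega⟩) (x3 := ⟨4 * i + 3, by omega⟩)
        (x4 := ⟨4 * i + 4, by omega⟩) hu ?_ (ih (by omega)) ?_ ?_ ?_ ?_
      · simp only [nd7, h, ne_eq, Fin.ext_iff, Fin.val_zero, Fin.val_last]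
        omega
      all_goals exact g0 _ _ (by simp only [ne_eq, Fin.ext_iff]; omega) (Or.inr rfl)
  have := (inv _ _ _ ⟨key k le_rfl, by simp [h, Fin.ext_iff], by simp [h, Fin.ext_iff]⟩).2.2
  simp only [Fin.val_zero, zero_add] at this
  exact this.trans (Nat.pow_le_pow_right (by norm_num) (tau_le_max PP G0))

def off (r : ℤ) : List ℤ := if r = 0 then [1, 2, 3, -3, -2] else if r = 1 then [-1, 1, 3, -4, -2]
  else if r = 2 then [-2, -1, 1, 2, 3, 4] else if r = 3 then [-3, -1, 2] else [-3, -2, 2]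

def nb (x : ℤ) : List ℤ := (off (x % 5)).map (x + ·)

def sp (x y : ℤ) : Prop := x % 5 ≤ 1 ∧ y % 5 ≤ 1 ∧ x / 5 = y / 5

instance (x y : ℤ) : Decidable (sp x y) := by unfold sp; infer_instance

lemma nb_sh (x y q : ℤ) : y - 5 * q ∈ nb (x - 5 * q) ↔ y ∈ nb x := by
  simp only [nb, List.mem_map, show (x - 5 * q) % 5 = x % 5 by omega]
  exact exists_congr fun d => and_congr_right fun _ => by omega

lemma nb_symm {x y : ℤ} (h : y ∈ nb x) : x ∈ nb y := by
  have : ∀ r ∈ [(0 : ℤ), 1, 2, 3, 4], ∀ y ∈ nb r, r ∈ nb y := by decide +kernel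
  rw [← nb_sh _ _ (x / 5)] at h ⊢
  exact this _ (by simp; omega) _ h

lemma locR {v c0 c1 c2 c3 c4 c5 : ℤ} (nd : [c0, c1, c2, c3, c4, c5, v].Nodup) (s0 : c0 ∈ nb v)
    (s1 : c1 ∈ nb v) (s2 : c2 ∈ nb v) (s3 : c3 ∈ nb v) (s4 : c4 ∈ nb v) (s5 : c5 ∈ nb v)
    (r1 : c2 ∈ nb c1) (r2 : c3 ∈ nb c2) (r3 : c4 ∈ nb c3) (r4 : c5 ∈ nb c4) (r5 : c0 ∈ nb c5) :
    c1 ∈ nb c0 ∧ (sp c0 c1 → sp c3 c4 ∧ c0 / 5 ≤ c3 / 5 + 1) := by
  have : ∀ v ∈ [(0 : ℤ), 1, 2, 3, 4], ∀ c1 ∈ nb v, ∀ c2 ∈ nb v, c2 ∈ nb c1 → ∀ c3 ∈ nb v,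
      c3 ∈ nb c2 → ∀ c4 ∈ nb v, c4 ∈ nb c3 → ∀ c5 ∈ nb v, c5 ∈ nb c4 → ∀ c0 ∈ nb v, c0 ∈ nb c5 →
      [c0, c1, c2, c3, c4, c5, v].Nodup →
      c1 ∈ nb c0 ∧ (sp c0 c1 → sp c3 c4 ∧ c0 / 5 ≤ c3 / 5 + 1) := by decide +kernel
  rw [← nb_sh _ _ (v / 5)] at s0 s1 s2 s3 s4 s5 r1 r2 r3 r4 r5 ⊢
  have := this _ (by simp; omega) _ s1 _ s2 r1 _ s3 r2 _ s4 r3 _ s5 r4 _ s0 r5
    (nd.map (f := (· - 5 * (v / 5))) sub_left_injective)
  refine ⟨this.1, ?_⟩
  have := this.2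
  unfold sp at *
  omega

lemma locS {v c0 c1 c2 c3 c4 c5 : ℤ} (nd : [c0, c1, c2, c3, c4, c5, v].Nodup)
    (s1 : c1 ∈ nb v) (s2 : c2 ∈ nb v) (s3 : c3 ∈ nb v) (s4 : c4 ∈ nb v) (s5 : c5 ∈ nb v)
    (r0 : c1 ∈ nb c0)
    (r1 : c2 ∈ nb c1) (r2 : c3 ∈ nb c2) (r3 : c4 ∈ nb c3) (r4 : c5 ∈ nb c4) (r5 : c0 ∈ nb c5) :
    c0 ∈ nb v ∧ ¬ sp v c0 := by
  have : ∀ v ∈ [(0 : ℤ), 1, 2, 3, 4], ∀ c1 ∈ nb v, ∀ c2 ∈ nb v, c2 ∈ nb c1 → ∀ c3 ∈ nb v,
      c3 ∈ nb c2 → ∀ c4 ∈ nb v, c4 ∈ nb c3 → ∀ c5 ∈ nb v, c5 ∈ nb c4 → ∀ c0 ∈ nb c5, c1 ∈ nb c0 →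
      [c0, c1, c2, c3, c4, c5, v].Nodup → c0 ∈ nb v ∧ ¬ sp v c0 := by decide +kernel
  rw [← nb_sh _ _ (v / 5)] at s1 s2 s3 s4 s5 r0 r1 r2 r3 r4 r5 ⊢
  have := this _ (by simp; omega) _ s1 _ s2 r1 _ s3 r2 _ s4 r3 _ s5 r4 _ r5 r0
    (nd.map (f := (· - 5 * (v / 5))) sub_left_injective)
  refine ⟨this.1, ?_⟩
  have := this.2
  unfold sp at *
  omega

def BT {n : ℕ} (t : ℕ) (x y : Fin n) : Prop :=
  (y.val : ℤ) ∈ nb x.val ∧ (sp x.val y.val → (x.val : ℤ) / 5 ≤ t)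

lemma BT.symm {n t : ℕ} {x y : Fin n} (h : BT t x y) : BT t y x :=
  ⟨nb_symm h.1, fun g => by have := h.2; unfold sp at *; omega⟩

lemma lowerW (m n : ℕ) (hn : 5 * m + 2 ≤ n) : m ≤ maxTime W6 n := by
  let G0 : SimpleGraph (Fin n) := fromRel (BT 0)
  let G : ℕ → SimpleGraph (Fin n) := fun t => (step W6)^[t] G0
  have mo : Monotone G := iter_mono W6 G0
  have gs : ∀ t, G (t + 1) = step W6 (G t) := fun t => Function.iterate_succ_apply' _ _ _
  have inv : ∀ t x y, (G t).Adj x y → BT t x y := by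
    intro t
    induction t with
    | zero => exact fun x y e => ((fromRel_adj _ _ _).1 e).2.elim id BT.symm
    | succ t ih =>
      intro x y e
      by_cases f : (G t).Adj x y
      · exact ⟨(ih x y f).1, fun g => by have := (ih x y f).2 g; push_cast; omega⟩
      obtain ⟨v, c0, c1, c2, c3, c4, c5, w, r⟩ := W_inv (gs t ▸ e) f
      have fin : ∀ a b, AE (G t) x y a b → ¬ (G t).Adj a b → BT (t + 1) a b → BT (t + 1) x y := by
        rintro a b (p | ⟨rfl, rfl⟩ | ⟨rfl, rfl⟩) q s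
        exacts [absurd p q, s, s.symm]
      have oth : ∀ a b, AE (G t) x y a b → ¬ (G t).Adj a b → ∀ c d, AE (G t) x y c d →
          (c ≠ a ∧ c ≠ b) ∨ (d ≠ a ∧ d ≠ b) → BT t c d := by
        intro a b p q c d s u
        refine ih _ _ ?_
        unfold AE at *
        grind
      have R : ∀ {c0 c1 c2 c3 c4 c5}, Wh (AE (G t) x y) v c0 c1 c2 c3 c4 c5 → ¬ (G t).Adj c0 c1 →
          BT (t + 1) x y := by
        intro c0 c1 c2 c3 c4 c5 w q
        have nd := (nd7 _ _ _ _ _ _ _).1 w.nd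
        have o := oth _ _ w.r0 q
        have z := o _ _ w.r3 (by grind)
        have := locR (by simp only [nd7, ne_eq, Nat.cast_inj, Fin.val_inj]; exact nd)
          (o _ _ w.s0 (by grind)).1 (o _ _ w.s1 (by grind)).1 (o _ _ w.s2 (by grind)).1
          (o _ _ w.s3 (by grind)).1 (o _ _ w.s4 (by grind)).1 (o _ _ w.s5 (by grind)).1
          (o _ _ w.r1 (by grind)).1 (o _ _ w.r2 (by grind)).1 z.1
          (o _ _ w.r4 (by grind)).1 (o _ _ w.r5 (by grind)).1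
        refine fin _ _ w.r0 q ⟨this.1, fun g => ?_⟩
        have a := this.2 g
        have := z.2 a.1
        push_cast
        omega
      have S : ∀ {c0 c1 c2 c3 c4 c5}, Wh (AE (G t) x y) v c0 c1 c2 c3 c4 c5 → ¬ (G t).Adj v c0 →
          BT (t + 1) x y := by
        intro c0 c1 c2 c3 c4 c5 w q
        have nd := (nd7 _ _ _ _ _ _ _).1 w.nd
        have o := oth _ _ w.s0 q
        have := locS (by simp only [nd7, ne_eq, Nat.cast_inj, Fin.val_inj]; exact nd)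
          (o _ _ w.s1 (by grind)).1 (o _ _ w.s2 (by grind)).1
          (o _ _ w.s3 (by grind)).1 (o _ _ w.s4 (by grind)).1 (o _ _ w.s5 (by grind)).1
          (o _ _ w.r0 (by grind)).1 (o _ _ w.r1 (by grind)).1 (o _ _ w.r2 (by grind)).1
          (o _ _ w.r3 (by grind)).1 (o _ _ w.r4 (by grind)).1 (o _ _ w.r5 (by grind)).1
        exact fin _ _ w.s0 q ⟨this.1, fun g => absurd g this.2⟩
      by_contra hp
      exact r ⟨w.nd, by_contra fun e => hp (R w e), by_contra fun e => hp (R w.rot e),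
        by_contra fun e => hp (R w.rot.rot e), by_contra fun e => hp (R w.rot.rot.rot e),
        by_contra fun e => hp (R w.rot.rot.rot.rot e),
        by_contra fun e => hp (R w.rot.rot.rot.rot.rot e),
        by_contra fun e => hp (S w e), by_contra fun e => hp (S w.rot e),
        by_contra fun e => hp (S w.rot.rot e), by_contra fun e => hp (S w.rot.rot.rot e),
        by_contra fun e => hp (S w.rot.rot.rot.rot e),
        by_contra fun e => hp (S w.rot.rot.rot.rot.rot e)⟩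
  have st : step W6 (G (tau W6 G0)) = G (tau W6 G0) := tau_spec W6 G0
  have g0 : ∀ (i a b : ℕ) (ha : 5 * i + a < n) (hb : 5 * i + b < n), a ≠ b →
      (b : ℤ) ∈ nb a → (sp a b → i = 0 ∧ a < 5) →
      (G (tau W6 G0)).Adj ⟨5 * i + a, ha⟩ ⟨5 * i + b, hb⟩ := by
    intro i a b ha hb p q s
    refine mo (Nat.zero_le _) ((fromRel_adj _ _ _).2 ⟨by simpa using p, Or.inl ⟨?_, fun g => ?_⟩⟩)
    · rw [← nb_sh _ _ i]
      simpa using q
    · unfold sp at *
      push_cast at *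
      omega
  have key : ∀ i, ∀ hi : i ≤ m,
      (G (tau W6 G0)).Adj ⟨5 * i + 0, by omega⟩ ⟨5 * i + 1, by omega⟩ := by
    intro i
    induction i with
    | zero => exact fun _ => g0 _ _ _ _ _ (by decide) (by decide) (by decide)
    | succ i ih =>
      intro hi
      rw [← st]
      refine W_intro (V := Fin n) (c0 := ⟨5 * i + 5, by omega⟩) (c1 := ⟨5 * i + 6, by omega⟩)
        (c2 := ⟨5 * i + 4, by omega⟩) (c3 := ⟨5 * i + 1, by omega⟩) (c4 := ⟨5 * i + 0, by omega⟩)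
        (c5 := ⟨5 * i + 3, by omega⟩) (v := ⟨5 * i + 2, by omega⟩)
        ⟨?_, Or.inr (Or.inl ⟨rfl, rfl⟩), ?_, ?_, Or.inl (ih (by omega)).symm, ?_, ?_, ?_, ?_, ?_,
          ?_, ?_, ?_⟩
      · simp only [nd7, ne_eq, Fin.ext_iff]
        omega
      all_goals exact Or.inl (g0 _ _ _ _ _ (by decide) (by decide) fun g => absurd g (by decide))
  have := (inv _ _ _ (key m le_rfl)).2 (by unfold sp; push_cast; omega)
  refine le_trans ?_ (tau_le_max W6 G0)
  push_cast at this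
  omega

end Pool.Agent.H.MP_7332c2_co
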